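import Mathlib

/-!
Level sets of a positive functional on `Fin d → ℕ`, and the geometric inequality.
-/

namespace Pool.Agent.TH417.GNSWilf

open Finset

open scoped Classical

variable {d : ℕ}

/-- The functional with weights `ω`. -/
noncomputable def phi (ω : Fin d → ℝ) (x : Fin d → ℕ) : ℝ := ∑ i, ω i * (x i : ℝ)

/-- The finite set of points where `phi ω` is at most `y`. -/
noncomputable def lev (ω : Fin d → ℝ) (y : ℝ) : Finset (Fin d → ℕ) :=
  (Fintype.piFinset (fun i => Finset.range (⌊y / ω i⌋₊ + 1))).filter (fun x => phi ω x ≤ y)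

theorem phi_add (ω : Fin d → ℝ) (x z : Fin d → ℕ) : phi ω (x + z) = phi ω x + phi ω z := by
  simp only [phi, ← Finset.sum_add_distrib]
  refine Finset.sum_congr rfl fun i _ => ?_
  simp
  ring

theorem phi_zero (ω : Fin d → ℝ) : phi ω 0 = 0 := by simp [phi]

theorem phi_smul (ω : Fin d → ℝ) (k : ℕ) (x : Fin d → ℕ) : phi ω (k • x) = k * phi ω x := by
  simp only [phi, Finset.mul_sum]
  refine Finset.sum_congr rfl fun i _ => ?_
  simp
  ring

theorem phi_single (ω : Fin d → ℝ) (l : Fin d) : phi ω (Pi.single l 1) = ω l := by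
  simp only [phi]
  rw [Finset.sum_eq_single l]
  · simp
  · intro b _ hb
    simp [Pi.single_eq_of_ne hb]
  · simp

theorem phi_nonneg {ω : Fin d → ℝ} (hω : ∀ i, 0 < ω i) (x : Fin d → ℕ) : 0 ≤ phi ω x :=
  Finset.sum_nonneg fun i _ => mul_nonneg (hω i).le (Nat.cast_nonneg _)

theorem coord_le_phi {ω : Fin d → ℝ} (hω : ∀ i, 0 < ω i) (x : Fin d → ℕ) (i : Fin d) :
    ω i * (x i : ℝ) ≤ phi ω x :=
  Finset.single_le_sum (f := fun i => ω i * (x i : ℝ))
    (fun i _ => mul_nonneg (hω i).le (Nat.cast_nonneg _)) (Finset.mem_univ i)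

theorem phi_pos {ω : Fin d → ℝ} (hω : ∀ i, 0 < ω i) {x : Fin d → ℕ} (hx : x ≠ 0) :
    0 < phi ω x := by
  obtain ⟨i, hi⟩ : ∃ i, x i ≠ 0 := by
    by_contra h
    push Not at h
    exact hx (funext h)
  have h1 := coord_le_phi hω x i
  have h2 : 0 < ω i * (x i : ℝ) := mul_pos (hω i) (by exact_mod_cast Nat.pos_of_ne_zero hi)
  linarith

theorem mem_lev {ω : Fin d → ℝ} (hω : ∀ i, 0 < ω i) {y : ℝ} {x : Fin d → ℕ} :
    x ∈ lev ω y ↔ phi ω x ≤ y := by
  constructor
  · intro h
    exact (Finset.mem_filter.1 h).2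
  · intro h
    refine Finset.mem_filter.2 ⟨?_, h⟩
    rw [Fintype.mem_piFinset]
    intro i
    rw [Finset.mem_range, Nat.lt_succ_iff]
    apply Nat.le_floor
    rw [le_div_iff₀ (hω i)]
    have := coord_le_phi hω x i
    linarith

theorem lev_mono {ω : Fin d → ℝ} (hω : ∀ i, 0 < ω i) {y z : ℝ} (h : y ≤ z) :
    lev ω y ⊆ lev ω z := by
  intro x hx
  rw [mem_lev hω] at hx ⊢
  exact hx.trans h

/-- Splitting a sum over a level set by a translation. -/
theorem sum_split {ω : Fin d → ℝ} (hω : ∀ i, 0 < ω i) (y : ℝ) (g : Fin d → ℕ)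
    (f : (Fin d → ℕ) → ℝ) :
    ∑ x ∈ lev ω (y + phi ω g), f x =
      ∑ x ∈ (lev ω (y + phi ω g)).filter (fun x => ¬ g ≤ x), f x + ∑ x ∈ lev ω y, f (x + g) := by
  have h1 : (lev ω (y + phi ω g)).filter (fun x => g ≤ x) = (lev ω y).image (fun x => x + g) := by
    ext x
    simp only [Finset.mem_filter, Finset.mem_image, mem_lev hω]
    constructor
    · rintro ⟨h1, h2⟩
      refine ⟨x - g, ?_, tsub_add_cancel_of_le h2⟩
      have : phi ω (x - g + g) = phi ω (x - g) + phi ω g := phi_add _ _ _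
      rw [tsub_add_cancel_of_le h2] at this
      linarith
    · rintro ⟨z, hz, rfl⟩
      refine ⟨?_, le_add_self⟩
      rw [phi_add]
      linarith
  have h2 : ∑ x ∈ lev ω y, f (x + g) = ∑ x ∈ (lev ω (y + phi ω g)).filter (fun x => g ≤ x), f x := by
    rw [h1, Finset.sum_image]
    intro a _ b _ hab
    exact add_right_cancel hab
  rw [h2, ← Finset.sum_filter_add_sum_filter_not (lev ω (y + phi ω g)) (fun x => g ≤ x)]
  exact add_comm _ _

/-- Double counting in direction `j`. -/
theorem fiber_lower {ω : Fin d → ℝ} (hω : ∀ i, 0 < ω i) (Y : ℝ) {j l : Fin d} (hjl : j ≠ l) :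
    ∑ x ∈ (lev ω Y).filter (fun x => x l = 0), (Y - phi ω x) ≤
      ω j * ∑ x ∈ (lev ω Y).filter (fun x => x l = 0), ((x j : ℝ) + 1) := by
  set D := (lev ω Y).filter (fun x => x l = 0) with hD
  have hmem : ∀ x, x ∈ D ↔ phi ω x ≤ Y ∧ x l = 0 := by
    intro x
    rw [hD, Finset.mem_filter, mem_lev hω]
  let r : (Fin d → ℕ) → (Fin d → ℕ) → Prop := fun x' x => ∃ k : ℕ, x = x' + k • Pi.single j 1
  have hdc := Finset.sum_card_bipartiteAbove_eq_sum_card_bipartiteBelow (s := D) (t := D) r
  have hup : ∀ x ∈ D, ((Finset.bipartiteBelow r D x).card : ℝ) ≤ (x j : ℝ) + 1 := by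
    intro x hx
    have h1 : (Finset.bipartiteBelow r D x).card ≤ (Finset.range (x j + 1)).card := by
      apply Finset.card_le_card_of_injOn (fun x' => x' j)
      · intro x' hx'
        have := (Finset.mem_filter.1 hx').2
        obtain ⟨k, hk⟩ := this
        simp only [Finset.coe_range, Set.mem_Iio]
        have := congrFun hk j
        simp at this
        omega
      · intro a ha b hb hab
        obtain ⟨ka, hka⟩ := (Finset.mem_filter.1 ha).2
        obtain ⟨kb, hkb⟩ := (Finset.mem_filter.1 hb).2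
        have h2 := congrFun hka j
        have h3 := congrFun hkb j
        simp at h2 h3 hab
        have h4 : ka = kb := by omega
        rw [h4] at hka
        rw [hka] at hkb
        exact add_right_cancel hkb
    rw [Finset.card_range] at h1
    exact_mod_cast h1
  have hlow : ∀ x' ∈ D, Y - phi ω x' ≤ ω j * ((Finset.bipartiteAbove r D x').card : ℝ) := by
    intro x' hx'
    obtain ⟨hx1, hx2⟩ := (hmem x').1 hx'
    have h1 : (Finset.range (⌊(Y - phi ω x') / ω j⌋₊ + 1)).card ≤
        (Finset.bipartiteAbove r D x').card := by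
      apply Finset.card_le_card_of_injOn (fun k => x' + k • Pi.single j 1)
      · intro k hk
        simp only [Finset.coe_range, Set.mem_Iio] at hk
        refine Finset.mem_coe.2 (Finset.mem_filter.2 ⟨(hmem _).2 ⟨?_, ?_⟩, k, rfl⟩)
        · rw [phi_add, phi_smul, phi_single]
          have h2 : (k : ℝ) ≤ (Y - phi ω x') / ω j := by
            have h3 : k ≤ ⌊(Y - phi ω x') / ω j⌋₊ := by omega
            exact (Nat.le_floor_iff (div_nonneg (by linarith) (hω j).le)).1 h3
          rw [le_div_iff₀ (hω j)] at h2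
          linarith
        · simp [hx2, Pi.single_eq_of_ne hjl.symm]
      · intro a _ b _ hab
        have := congrFun hab j
        simpa using this
    rw [Finset.card_range] at h1
    have h2 : (Y - phi ω x') / ω j < (⌊(Y - phi ω x') / ω j⌋₊ : ℝ) + 1 := Nat.lt_floor_add_one _
    have h3 : (((⌊(Y - phi ω x') / ω j⌋₊ + 1 : ℕ)) : ℝ) ≤ ((Finset.bipartiteAbove r D x').card : ℝ) := by
      exact_mod_cast h1
    push_cast at h3
    have h4 : (Y - phi ω x') / ω j ≤ ((Finset.bipartiteAbove r D x').card : ℝ) := by linarith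
    rw [div_le_iff₀ (hω j)] at h4
    linarith
  calc ∑ x ∈ D, (Y - phi ω x) ≤ ∑ x' ∈ D, ω j * ((Finset.bipartiteAbove r D x').card : ℝ) :=
        Finset.sum_le_sum hlow
    _ = ω j * ((∑ x' ∈ D, (Finset.bipartiteAbove r D x').card : ℕ) : ℝ) := by
        rw [← Finset.mul_sum]; push_cast; rfl
    _ = ω j * ((∑ x ∈ D, (Finset.bipartiteBelow r D x).card : ℕ) : ℝ) := by rw [hdc]
    _ = ω j * ∑ x ∈ D, ((Finset.bipartiteBelow r D x).card : ℝ) := by push_cast; rfl
    _ ≤ ω j * ∑ x ∈ D, ((x j : ℝ) + 1) := by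
        apply mul_le_mul_of_nonneg_left _ (hω j).le
        exact Finset.sum_le_sum hup

/-- Counting the points of a level set by fibres in direction `l`. -/
theorem fiber_upper {ω : Fin d → ℝ} (hω : ∀ i, 0 < ω i) (y : ℝ) (l : Fin d) :
    ω l * ((lev ω y).card : ℝ) ≤
      ∑ x ∈ (lev ω (y + ω l)).filter (fun x => x l = 0), (y + ω l - phi ω x) := by
  set D := (lev ω (y + ω l)).filter (fun x => x l = 0) with hD
  have hmem : ∀ x, x ∈ D ↔ phi ω x ≤ y + ω l ∧ x l = 0 := by
    intro x
    rw [hD, Finset.mem_filter, mem_lev hω]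
  have hdecomp : ∀ x : Fin d → ℕ, x = Function.update x l 0 + (x l) • Pi.single l 1 := by
    intro x
    funext i
    by_cases hi : i = l
    · subst hi
      simp
    · simp [Function.update_of_ne hi, Pi.single_eq_of_ne hi]
  have hphi : ∀ x : Fin d → ℕ, phi ω x = phi ω (Function.update x l 0) + (x l : ℝ) * ω l := by
    intro x
    conv_lhs => rw [hdecomp x]
    rw [phi_add, phi_smul, phi_single]
  have hcard := Finset.card_eq_sum_card_fiberwise (s := lev ω y) (t := D)
    (f := fun x => Function.update x l 0) (by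
      intro x hx
      have hx' : phi ω x ≤ y := (mem_lev hω).1 hx
      have h1 := hphi x
      refine Finset.mem_coe.2 ((hmem _).2 ⟨?_, by simp⟩)
      have h2 : 0 ≤ (x l : ℝ) * ω l := mul_nonneg (Nat.cast_nonneg _) (hω l).le
      have h3 := hω l
      linarith)
  have hfib : ∀ x ∈ D, ω l * ((((lev ω y).filter (fun x' => Function.update x' l 0 = x)).card : ℕ) : ℝ)
      ≤ y + ω l - phi ω x := by
    intro x hx
    obtain ⟨hx1, hx2⟩ := (hmem x).1 hx
    by_cases hy : y - phi ω x < 0
    · have h1 : (lev ω y).filter (fun x' => Function.update x' l 0 = x) = ∅ := by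
        rw [Finset.filter_eq_empty_iff]
        intro x' hx' h
        have h2 : phi ω x' ≤ y := (mem_lev hω).1 hx'
        have h3 := hphi x'
        rw [h] at h3
        have h4 : 0 ≤ (x' l : ℝ) * ω l := mul_nonneg (Nat.cast_nonneg _) (hω l).le
        linarith
      rw [h1]
      simp
      linarith
    · push Not at hy
      have h1 : ((lev ω y).filter (fun x' => Function.update x' l 0 = x)).card ≤
          (Finset.range (⌊(y - phi ω x) / ω l⌋₊ + 1)).card := by
        apply Finset.card_le_card_of_injOn (fun x' => x' l)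
        · intro x' hx'
          obtain ⟨h2, h3⟩ := Finset.mem_filter.1 hx'
          have h4 : phi ω x' ≤ y := (mem_lev hω).1 h2
          have h5 := hphi x'
          rw [h3] at h5
          simp only [Finset.coe_range, Set.mem_Iio, Nat.lt_succ_iff]
          apply Nat.le_floor
          rw [le_div_iff₀ (hω l)]
          linarith
        · intro a ha b hb hab
          obtain ⟨_, h3⟩ := Finset.mem_filter.1 ha
          obtain ⟨_, h4⟩ := Finset.mem_filter.1 hb
          rw [hdecomp a, hdecomp b, h3, h4]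
          simp only at hab
          rw [hab]
      rw [Finset.card_range] at h1
      have h2 : (⌊(y - phi ω x) / ω l⌋₊ : ℝ) ≤ (y - phi ω x) / ω l :=
        Nat.floor_le (div_nonneg hy (hω l).le)
      have h3 : ((((lev ω y).filter (fun x' => Function.update x' l 0 = x)).card : ℕ) : ℝ) ≤
          (y - phi ω x) / ω l + 1 := by
        have : ((((lev ω y).filter (fun x' => Function.update x' l 0 = x)).card : ℕ) : ℝ) ≤
          ((⌊(y - phi ω x) / ω l⌋₊ + 1 : ℕ) : ℝ) := by exact_mod_cast h1
        push_cast at this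
        linarith
      have h4 := mul_le_mul_of_nonneg_left h3 (hω l).le
      have h5 : ω l * ((y - phi ω x) / ω l + 1) = y + ω l - phi ω x := by
        have := (hω l).ne'
        field_simp
        ring
      linarith
  rw [hcard]
  push_cast
  rw [Finset.mul_sum]
  exact Finset.sum_le_sum hfib

/-- The potential function. -/
noncomputable def Phi (ω : Fin d → ℝ) (j : Fin d) (y : ℝ) : ℝ :=
  ω j * ∑ x ∈ lev ω y, ((x j : ℝ) + 1)

theorem single_le_iff (l : Fin d) (x : Fin d → ℕ) : (Pi.single l 1 : Fin d → ℕ) ≤ x ↔ x l ≠ 0 := by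
  constructor
  · intro h
    have := h l
    simp at this
    omega
  · intro h i
    by_cases hi : i = l
    · subst hi
      simp
      omega
    · simp [Pi.single_eq_of_ne hi]

/-- Moment of a level set shifted by one step in direction `j`. -/
theorem moment_shift {ω : Fin d → ℝ} (hω : ∀ i, 0 < ω i) (j : Fin d) (y : ℝ) :
    ω j * ∑ x ∈ lev ω (y + ω j), (x j : ℝ) = Phi ω j y := by
  have h := sum_split hω y (Pi.single j 1) (fun x => (x j : ℝ))
  rw [phi_single] at h
  rw [h, Phi]
  congr 1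
  have h1 : ∑ x ∈ (lev ω (y + ω j)).filter (fun x => ¬ (Pi.single j 1 : Fin d → ℕ) ≤ x), (x j : ℝ) = 0 := by
    apply Finset.sum_eq_zero
    intro x hx
    have := (Finset.mem_filter.1 hx).2
    rw [single_le_iff, not_not] at this
    simp [this]
  rw [h1, zero_add]
  refine Finset.sum_congr rfl fun x _ => ?_
  simp

/-- One step of the walk. -/
theorem Phi_step {ω : Fin d → ℝ} (hω : ∀ i, 0 < ω i) (j l : Fin d) (y : ℝ) :
    ω l * ((lev ω y).card : ℝ) ≤ Phi ω j (y + ω l) - Phi ω j y := by
  by_cases hjl : j = l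
  · subst hjl
    have h1 := moment_shift hω j y
    have h2 : Phi ω j (y + ω j) = ω j * ∑ x ∈ lev ω (y + ω j), (x j : ℝ) +
        ω j * ((lev ω (y + ω j)).card : ℝ) := by
      rw [Phi, Finset.sum_add_distrib]
      simp
      ring
    rw [h2, h1]
    have h3 : ((lev ω y).card : ℝ) ≤ ((lev ω (y + ω j)).card : ℝ) := by
      exact_mod_cast Finset.card_le_card (lev_mono hω (by linarith [hω j]))
    have h4 := mul_le_mul_of_nonneg_left h3 (hω j).le
    linarith
  · have h1 := fiber_upper hω y l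
    have h2 := fiber_lower hω (y + ω l) hjl
    have h := sum_split hω y (Pi.single l 1) (fun x => (x j : ℝ) + 1)
    rw [phi_single] at h
    have h3 : (lev ω (y + ω l)).filter (fun x => ¬ (Pi.single l 1 : Fin d → ℕ) ≤ x) =
        (lev ω (y + ω l)).filter (fun x => x l = 0) := by
      apply Finset.filter_congr
      intro x _
      rw [single_le_iff, not_not]
    rw [h3] at h
    have h5 : ∑ x ∈ lev ω y, ((((x + Pi.single l 1 : Fin d → ℕ) j : ℕ) : ℝ) + 1) =
        ∑ x ∈ lev ω y, ((x j : ℝ) + 1) := by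
      refine Finset.sum_congr rfl fun x _ => ?_
      simp [Pi.single_eq_of_ne hjl]
    rw [h5] at h
    have h6 : Phi ω j (y + ω l) - Phi ω j y =
        ω j * ∑ x ∈ (lev ω (y + ω l)).filter (fun x => x l = 0), ((x j : ℝ) + 1) := by
      rw [Phi, Phi, h]
      ring
    rw [h6]
    linarith

/-- Several steps of the walk. -/
theorem Phi_walk {ω : Fin d → ℝ} (hω : ∀ i, 0 < ω i) (j : Fin d) (y : ℝ) :
    ∀ (n : ℕ) (g : Fin d → ℕ), ∑ i, g i = n →
    phi ω g * ((lev ω y).card : ℝ) ≤ Phi ω j (y + phi ω g) - Phi ω j y := by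
  intro n
  induction n with
  | zero =>
    intro g hg
    have : g = 0 := by
      funext i
      exact (Finset.sum_eq_zero_iff.1 hg) i (Finset.mem_univ i)
    subst this
    simp [phi_zero]
  | succ n ih =>
    intro g hg
    obtain ⟨l, hl⟩ : ∃ l, g l ≠ 0 := by
      by_contra h
      push Not at h
      simp [h] at hg
    have hle : (Pi.single l 1 : Fin d → ℕ) ≤ g := (single_le_iff l g).2 hl
    obtain ⟨g', rfl⟩ : ∃ g', g = g' + Pi.single l 1 := ⟨g - Pi.single l 1, (tsub_add_cancel_of_le hle).symm⟩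
    have hg' : ∑ i, g' i = n := by
      have : ∑ i, (g' + Pi.single l 1 : Fin d → ℕ) i = ∑ i, g' i + 1 := by
        simp [Finset.sum_add_distrib]
      omega
    have h1 := ih g' hg'
    have h2 := Phi_step hω j l (y + phi ω g')
    rw [phi_add, phi_single]
    have h3 : ((lev ω y).card : ℝ) ≤ ((lev ω (y + phi ω g')).card : ℝ) := by
      exact_mod_cast Finset.card_le_card (lev_mono hω (by linarith [phi_nonneg hω g']))
    have h4 := mul_le_mul_of_nonneg_left h3 (hω l).le
    rw [← add_assoc]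
    linarith

/-- The geometric inequality. -/
theorem geometric {ω : Fin d → ℝ} (hω : ∀ i, 0 < ω i) (j : Fin d) (y : ℝ) (g : Fin d → ℕ)
    (hg : g j ≠ 0) :
    phi ω g * ((lev ω y).card : ℝ) ≤
      ω j * ∑ x ∈ lev ω (y + phi ω g), (x j : ℝ) - ω j * ∑ x ∈ lev ω y, (x j : ℝ) := by
  have hle : (Pi.single j 1 : Fin d → ℕ) ≤ g := (single_le_iff j g).2 hg
  obtain ⟨g', rfl⟩ : ∃ g', g = g' + Pi.single j 1 := ⟨g - Pi.single j 1, (tsub_add_cancel_of_le hle).symm⟩
  have h1 := Phi_walk hω j y _ g' rfl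
  have h2 := moment_shift hω j (y + phi ω g')
  rw [phi_add, phi_single, ← add_assoc, h2]
  have h3 : Phi ω j y = ω j * ∑ x ∈ lev ω y, (x j : ℝ) + ω j * ((lev ω y).card : ℝ) := by
    rw [Phi, Finset.sum_add_distrib]
    simp
    ring
  linarith

end Pool.Agent.TH417.GNSWilf
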