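import Mathlib
import Pool.Agent.TH417.GNSLevel

/-!
The core inequality for a generalized numerical semigroup and a positive functional.
-/

namespace Pool.Agent.TH417.GNSWilf

open Finset

open scoped Classical

variable {d : ℕ}

/-- `x` is a minimal generator of `S`. -/
def IsGen (S : AddSubmonoid (Fin d → ℕ)) (x : Fin d → ℕ) : Prop :=
  x ∈ S ∧ x ≠ 0 ∧ ∀ a ∈ S, ∀ b ∈ S, a ≠ 0 → b ≠ 0 → a + b ≠ x

theorem exists_factorization (S : AddSubmonoid (Fin d → ℕ)) (G : Finset (Fin d → ℕ))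
    (hG : ∀ x, x ∈ G ↔ IsGen S x) :
    ∀ (n : ℕ) (w : Fin d → ℕ), w ∈ S → ∑ i, w i = n →
      ∃ a : (Fin d → ℕ) → ℕ, w = ∑ x ∈ G, a x • x := by
  intro n
  induction n using Nat.strong_induction_on with
  | _ n ih =>
    intro w hw hn
    by_cases h0 : w = 0
    · exact ⟨fun _ => 0, by simp [h0]⟩
    by_cases hg : IsGen S w
    · refine ⟨fun x => if x = w then 1 else 0, ?_⟩
      rw [Finset.sum_eq_single w]
      · simp
      · intro b _ hb
        simp [hb]
      · intro h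
        exact absurd ((hG w).2 hg) h
    · unfold IsGen at hg
      push Not at hg
      obtain ⟨a, ha, b, hb, ha0, hb0, hab⟩ := hg hw h0
      have hsum : ∑ i, a i + ∑ i, b i = n := by
        rw [← hn, ← hab, ← Finset.sum_add_distrib]
        rfl
      have hpos : ∀ c : Fin d → ℕ, c ≠ 0 → 0 < ∑ i, c i := by
        intro c hc
        rw [Nat.pos_iff_ne_zero]
        intro h
        apply hc
        funext i
        exact (Finset.sum_eq_zero_iff.1 h) i (Finset.mem_univ i)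
      have ha1 := hpos a ha0
      have hb1 := hpos b hb0
      obtain ⟨f, hf⟩ := ih (∑ i, a i) (by omega) a ha rfl
      obtain ⟨g, hg⟩ := ih (∑ i, b i) (by omega) b hb rfl
      refine ⟨fun x => f x + g x, ?_⟩
      rw [← hab]
      simp only [add_smul, Finset.sum_add_distrib]
      rw [← hf, ← hg]

theorem sub_factor (S : AddSubmonoid (Fin d → ℕ)) (G : Finset (Fin d → ℕ))
    (hG : ∀ x, x ∈ G ↔ IsGen S x) (a : (Fin d → ℕ) → ℕ) (x : Fin d → ℕ) (hx : x ∈ G)
    (k : ℕ) (hk : k ≤ a x) : ∃ v ∈ S, ∑ z ∈ G, a z • z = v + k • x := by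
  refine ⟨∑ z ∈ G.erase x, a z • z + (a x - k) • x, ?_, ?_⟩
  · apply S.add_mem
    · apply S.sum_mem
      intro z hz
      exact S.nsmul_mem ((hG z).1 (Finset.mem_of_mem_erase hz)).1 _
    · exact S.nsmul_mem ((hG x).1 hx).1 _
  · rw [← Finset.sum_erase_add _ _ hx, add_assoc, ← add_smul, Nat.sub_add_cancel hk]

/-- The core inequality for one coordinate. -/
theorem core_coord {ω : Fin d → ℝ} (hω : ∀ i, 0 < ω i) (S : AddSubmonoid (Fin d → ℕ))
    (τ : ℝ) (hτ : 0 ≤ τ) (hgap : ∀ x, x ∉ S → phi ω x ≤ τ) (G : Finset (Fin d → ℕ))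
    (hG : ∀ x, x ∈ G ↔ IsGen S x) (j : Fin d) :
    ((lev ω τ).card : ℝ) < 2 * (((lev ω τ).filter (fun x => x ∈ S)).card : ℝ) *
      ∑ x ∈ G, ω j * (x j : ℝ) / phi ω x := by
  have hS : ∀ x, τ < phi ω x → x ∈ S := by
    intro x hx
    by_contra h
    exact absurd (hgap x h) (not_le.2 hx)
  choose! a ha using fun w (hw : w ∈ S) => exists_factorization S G hG _ w hw rfl
  -- existence of gamma
  obtain ⟨γ, hγG, hγj, hγmin⟩ : ∃ γ ∈ G, γ j ≠ 0 ∧ ∀ x ∈ G, x j ≠ 0 → phi ω γ ≤ phi ω x := by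
    have hne : (G.filter (fun x => x j ≠ 0)).Nonempty := by
      obtain ⟨k, hk⟩ := exists_nat_gt (τ / ω j)
      rw [div_lt_iff₀ (hω j)] at hk
      have hk0 : k ≠ 0 := by
        rintro rfl
        simp at hk
        linarith
      have hw : (k • Pi.single j 1 : Fin d → ℕ) ∈ S := by
        apply hS
        rw [phi_smul, phi_single]
        exact hk
      have h1 := ha _ hw
      have h2 := congrFun h1 j
      by_contra hcon
      rw [Finset.not_nonempty_iff_eq_empty, Finset.filter_eq_empty_iff] at hcon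
      have h3 : (∑ x ∈ G, a (k • Pi.single j 1 : Fin d → ℕ) x • x) j = 0 := by
        rw [Finset.sum_apply]
        apply Finset.sum_eq_zero
        intro x hx
        have := hcon hx
        push Not at this
        simp [this]
      rw [h3] at h2
      simp at h2
      exact hk0 h2
    obtain ⟨γ, hγ, hmin⟩ := Finset.exists_min_image (G.filter (fun x => x j ≠ 0)) (phi ω) hne
    obtain ⟨h1, h2⟩ := Finset.mem_filter.1 hγ
    exact ⟨γ, h1, h2, fun x hx hxj => hmin x (Finset.mem_filter.2 ⟨hx, hxj⟩)⟩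
  have hγS : γ ∈ S := ((hG γ).1 hγG).1
  have hδ : 0 < phi ω γ := phi_pos hω ((hG γ).1 hγG).2.1
  set δ := phi ω γ with hδdef
  set A := (lev ω τ).filter (fun x => x ∈ S) with hA
  set B := (lev ω (τ + δ)).filter (fun x => x ∈ S) with hB
  set IA := A.image (fun x => x + γ) with hIA
  set W := B \ IA with hW
  have hmemA : ∀ x, x ∈ A ↔ phi ω x ≤ τ ∧ x ∈ S := by
    intro x; rw [hA, Finset.mem_filter, mem_lev hω]
  have hmemB : ∀ x, x ∈ B ↔ phi ω x ≤ τ + δ ∧ x ∈ S := by
    intro x; rw [hB, Finset.mem_filter, mem_lev hω]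
  have hIAB : IA ⊆ B := by
    intro x hx
    obtain ⟨z, hz, rfl⟩ := Finset.mem_image.1 hx
    obtain ⟨h1, h2⟩ := (hmemA z).1 hz
    refine (hmemB _).2 ⟨?_, S.add_mem h2 hγS⟩
    rw [phi_add]
    linarith
  have hWnot : ∀ w ∈ W, ∀ s ∈ S, s + γ ≠ w := by
    intro w hw s hs h
    obtain ⟨h1, h2⟩ := Finset.mem_sdiff.1 hw
    apply h2
    refine Finset.mem_image.2 ⟨s, (hmemA s).2 ⟨?_, hs⟩, h⟩
    have h3 := ((hmemB w).1 h1).1
    rw [← h, phi_add] at h3
    linarith
  have hWS : ∀ w ∈ W, w ∈ S := fun w hw => ((hmemB w).1 (Finset.mem_sdiff.1 hw).1).2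
  have hWle : ∀ w ∈ W, phi ω w ≤ τ + δ := fun w hw => ((hmemB w).1 (Finset.mem_sdiff.1 hw).1).1
  have hinj : Set.InjOn (fun x : Fin d → ℕ => x + γ) (A : Set (Fin d → ℕ)) := by
    intro x _ y _ h
    exact add_right_cancel h
  -- sum over W
  have hsumIA : ∑ x ∈ IA, (x j : ℝ) = ∑ x ∈ A, (x j : ℝ) + (A.card : ℝ) * (γ j : ℝ) := by
    rw [hIA, Finset.sum_image hinj]
    simp [Finset.sum_add_distrib]
  have hsumB : ∑ x ∈ B, (x j : ℝ) - ∑ x ∈ A, (x j : ℝ) =
      ∑ x ∈ lev ω (τ + δ), (x j : ℝ) - ∑ x ∈ lev ω τ, (x j : ℝ) := by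
    have h1 := Finset.sum_filter_add_sum_filter_not (lev ω (τ + δ)) (fun x => x ∈ S)
      (fun x => (x j : ℝ))
    have h2 := Finset.sum_filter_add_sum_filter_not (lev ω τ) (fun x => x ∈ S)
      (fun x => (x j : ℝ))
    have h3 : (lev ω (τ + δ)).filter (fun x => ¬ x ∈ S) = (lev ω τ).filter (fun x => ¬ x ∈ S) := by
      ext x
      simp only [Finset.mem_filter, mem_lev hω]
      constructor
      · rintro ⟨_, h⟩
        exact ⟨hgap x h, h⟩
      · rintro ⟨h, h'⟩
        exact ⟨by linarith, h'⟩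
    rw [h3] at h1
    linarith
  have hsumW : ∑ x ∈ W, (x j : ℝ) = ∑ x ∈ B, (x j : ℝ) - ∑ x ∈ IA, (x j : ℝ) := by
    have := Finset.sum_sdiff (f := fun x : Fin d → ℕ => (x j : ℝ)) hIAB
    rw [hW]
    linarith
  have hgeo := geometric hω j τ γ hγj
  rw [← hδdef] at hgeo
  have hlow : δ * ((lev ω τ).card : ℝ) ≤ ω j * ∑ x ∈ W, (x j : ℝ) + (A.card : ℝ) * (ω j * (γ j : ℝ)) := by
    rw [hsumW, hsumIA]
    have : ω j * (∑ x ∈ B, (x j : ℝ) - (∑ x ∈ A, (x j : ℝ) + (A.card : ℝ) * (γ j : ℝ))) +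
        (A.card : ℝ) * (ω j * (γ j : ℝ)) = ω j * (∑ x ∈ B, (x j : ℝ) - ∑ x ∈ A, (x j : ℝ)) := by ring
    rw [this, hsumB]
    linarith
  -- the set L'
  set A2 := A.filter (fun s => phi ω s + δ ≤ τ) with hA2
  set IA2 := A2.image (fun x => x + γ) with hIA2
  set L' := A \ IA2 with hL'
  have hIA2A : IA2 ⊆ A := by
    intro x hx
    obtain ⟨z, hz, rfl⟩ := Finset.mem_image.1 hx
    obtain ⟨h1, h2⟩ := Finset.mem_filter.1 hz
    refine (hmemA _).2 ⟨?_, S.add_mem ((hmemA z).1 h1).2 hγS⟩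
    rw [phi_add]
    exact h2
  set T := ∑ v ∈ L', (τ + δ - phi ω v) with hT
  have hTle : T ≤ 2 * δ * (A.card : ℝ) := by
    have h1 := Finset.sum_sdiff (f := fun v : Fin d → ℕ => τ + δ - phi ω v) hIA2A
    have h2 : ∑ v ∈ IA2, (τ + δ - phi ω v) = ∑ v ∈ A2, (τ - phi ω v) := by
      rw [hIA2, Finset.sum_image]
      · refine Finset.sum_congr rfl fun x _ => ?_
        rw [phi_add]
        ring
      · intro x _ y _ h
        exact add_right_cancel h
    have h3 := Finset.sum_filter_add_sum_filter_not A (fun s => phi ω s + δ ≤ τ)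
      (fun v => τ + δ - phi ω v)
    have h4 : ∑ v ∈ A.filter (fun s => ¬ phi ω s + δ ≤ τ), (τ + δ - phi ω v) ≤
        ∑ v ∈ A.filter (fun s => ¬ phi ω s + δ ≤ τ), 2 * δ := by
      apply Finset.sum_le_sum
      intro v hv
      have := (Finset.mem_filter.1 hv).2
      push Not at this
      linarith
    have h5 : ∑ v ∈ A2, (τ + δ - phi ω v) = ∑ v ∈ A2, (τ - phi ω v) + (A2.card : ℝ) * δ := by
      have : ∑ v ∈ A2, (τ + δ - phi ω v) = ∑ v ∈ A2, ((τ - phi ω v) + δ) := by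
        refine Finset.sum_congr rfl fun x _ => ?_
        ring
      rw [this, Finset.sum_add_distrib]
      simp
    have h6 : (A2.card : ℝ) + ((A.filter (fun s => ¬ phi ω s + δ ≤ τ)).card : ℝ) = (A.card : ℝ) := by
      have := Finset.card_filter_add_card_filter_not (s := A) (fun s => phi ω s + δ ≤ τ)
      exact_mod_cast this
    rw [Finset.sum_const, nsmul_eq_mul] at h4
    have h7 : (0 : ℝ) ≤ (A2.card : ℝ) := Nat.cast_nonneg _
    have h8 : T = ∑ v ∈ A, (τ + δ - phi ω v) - ∑ v ∈ IA2, (τ + δ - phi ω v) := by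
      rw [hT, hL']
      linarith
    rw [h8, h2, ← h3, ← h6]
    rw [← hA2, h5]
    nlinarith
  -- counting
  have hTnn : 0 ≤ T := by
    rw [hT]
    apply Finset.sum_nonneg
    intro v hv
    have := ((hmemA v).1 (Finset.mem_sdiff.1 hv).1).1
    linarith
  have hcount : ∀ x ∈ G, x ≠ γ → x j ≠ 0 → phi ω x * ∑ w ∈ W, (a w x : ℝ) ≤ T := by
    intro x hx hxγ hxj
    have hδx : δ ≤ phi ω x := hγmin x hx hxj
    have hφx : 0 < phi ω x := lt_of_lt_of_le hδ hδx
    have hc : (W.sigma (fun w => Finset.Icc 1 (a w x))).card ≤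
        (L'.sigma (fun v => Finset.Icc 1 (⌊(τ + δ - phi ω v) / phi ω x⌋₊))).card := by
      apply Finset.card_le_card_of_injOn (fun p => ⟨p.1 - p.2 • x, p.2⟩)
      · rintro ⟨w, k⟩ hp
        obtain ⟨hw, hk⟩ := Finset.mem_sigma.1 (Finset.mem_coe.1 hp)
        simp only [Finset.mem_Icc] at hk
        simp only at hw
        obtain ⟨v, hv, hvw⟩ := sub_factor S G hG (a w) x hx k hk.2
        rw [← ha w (hWS w hw)] at hvw
        have hsub : w - k • x = v := by rw [hvw, add_tsub_cancel_right]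
        have hφ : phi ω w = phi ω v + k * phi ω x := by rw [hvw, phi_add, phi_smul]
        have hwle := hWle w hw
        have hk1 : (1 : ℝ) ≤ (k : ℝ) := by exact_mod_cast hk.1
        have hvle : phi ω v ≤ τ := by nlinarith
        refine Finset.mem_coe.2 (Finset.mem_sigma.2 ⟨?_, ?_⟩)
        · simp only
          rw [hsub]
          refine Finset.mem_sdiff.2 ⟨(hmemA v).2 ⟨hvle, hv⟩, ?_⟩
          intro hvI
          obtain ⟨s, hs, hsv⟩ := Finset.mem_image.1 hvI
          have hsS : s ∈ S := ((hmemA s).1 (Finset.mem_filter.1 hs).1).2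
          apply hWnot w hw (s + k • x) (S.add_mem hsS (S.nsmul_mem ((hG x).1 hx).1 k))
          rw [hvw, ← hsv]
          abel
        · simp only
          rw [hsub, Finset.mem_Icc]
          refine ⟨hk.1, ?_⟩
          apply Nat.le_floor
          rw [le_div_iff₀ hφx]
          linarith
      · rintro ⟨w, k⟩ hp ⟨w', k'⟩ hp' h
        obtain ⟨hw, hk⟩ := Finset.mem_sigma.1 (Finset.mem_coe.1 hp)
        obtain ⟨hw', hk'⟩ := Finset.mem_sigma.1 (Finset.mem_coe.1 hp')
        simp only [Finset.mem_Icc] at hk hk'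
        simp only at hw hw'
        simp only [Sigma.mk.injEq, heq_eq_eq] at h
        obtain ⟨h1, h2⟩ := h
        obtain ⟨v, hv, hvw⟩ := sub_factor S G hG (a w) x hx k hk.2
        rw [← ha w (hWS w hw)] at hvw
        obtain ⟨v', hv', hvw'⟩ := sub_factor S G hG (a w') x hx k' hk'.2
        rw [← ha w' (hWS w' hw')] at hvw'
        have e1 : w - k • x = v := by rw [hvw, add_tsub_cancel_right]
        have e2 : w' - k' • x = v' := by rw [hvw', add_tsub_cancel_right]
        rw [e1, e2] at h1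
        have : w = w' := by rw [hvw, hvw', h1, h2]
        rw [this, h2]
    rw [Finset.card_sigma, Finset.card_sigma] at hc
    simp only [Nat.card_Icc, Nat.add_sub_cancel] at hc
    have hc' : (∑ w ∈ W, (a w x : ℝ)) ≤ ∑ v ∈ L', ((⌊(τ + δ - phi ω v) / phi ω x⌋₊ : ℕ) : ℝ) := by
      exact_mod_cast hc
    have hc'' : ∑ v ∈ L', ((⌊(τ + δ - phi ω v) / phi ω x⌋₊ : ℕ) : ℝ) ≤
        ∑ v ∈ L', (τ + δ - phi ω v) / phi ω x := by
      apply Finset.sum_le_sum
      intro v hv
      have := ((hmemA v).1 (Finset.mem_sdiff.1 hv).1).1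
      exact Nat.floor_le (div_nonneg (by linarith) hφx.le)
    rw [← Finset.sum_div, ← hT, le_div_iff₀ hφx] at hc''
    nlinarith
  -- expand the sum over W
  have hexp : ω j * ∑ w ∈ W, (w j : ℝ) =
      ∑ x ∈ G.erase γ, ω j * (x j : ℝ) * ∑ w ∈ W, (a w x : ℝ) := by
    have h1 : ∀ w ∈ W, (w j : ℝ) = ∑ x ∈ G.erase γ, (x j : ℝ) * (a w x : ℝ) := by
      intro w hw
      have h2 := ha w (hWS w hw)
      have h3 : a w γ = 0 := by
        by_contra hne
        obtain ⟨v, hv, hvw⟩ := sub_factor S G hG (a w) γ hγG 1 (by omega)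
        rw [← h2, one_smul] at hvw
        exact hWnot w hw v hv hvw.symm
      have h4 := congrFun h2 j
      rw [Finset.sum_apply, ← Finset.sum_erase_add _ _ hγG, h3] at h4
      simp only [Pi.smul_apply, smul_eq_mul, zero_mul, add_zero] at h4
      have h5 : (w j : ℝ) = ((∑ x ∈ G.erase γ, a w x * x j : ℕ) : ℝ) := by
        exact_mod_cast h4
      rw [h5]
      push_cast
      refine Finset.sum_congr rfl fun x _ => ?_
      ring
    rw [Finset.sum_congr rfl h1, Finset.sum_comm, Finset.mul_sum]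
    refine Finset.sum_congr rfl fun x _ => ?_
    rw [Finset.mul_sum, Finset.mul_sum]
    refine Finset.sum_congr rfl fun w _ => ?_
    ring
  have hup : ω j * ∑ w ∈ W, (w j : ℝ) ≤ ∑ x ∈ G.erase γ, ω j * (x j : ℝ) / phi ω x * T := by
    rw [hexp]
    apply Finset.sum_le_sum
    intro x hx
    obtain ⟨hxγ, hxG⟩ := Finset.mem_erase.1 hx
    by_cases hxj : x j = 0
    · simp [hxj]
    · have h1 := hcount x hxG hxγ hxj
      have hφx : 0 < phi ω x := phi_pos hω ((hG x).1 hxG).2.1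
      have h2 : 0 ≤ ω j * (x j : ℝ) := mul_nonneg (hω j).le (Nat.cast_nonneg _)
      have h3 : ω j * (x j : ℝ) * ∑ w ∈ W, (a w x : ℝ) =
          ω j * (x j : ℝ) / phi ω x * (phi ω x * ∑ w ∈ W, (a w x : ℝ)) := by
        field_simp
      rw [h3]
      exact mul_le_mul_of_nonneg_left h1 (div_nonneg h2 hφx.le)
  rw [← Finset.sum_mul] at hup
  set R := ∑ x ∈ G.erase γ, ω j * (x j : ℝ) / phi ω x with hR
  have hRnn : 0 ≤ R := by
    rw [hR]
    apply Finset.sum_nonneg
    intro x hx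
    exact div_nonneg (mul_nonneg (hω j).le (Nat.cast_nonneg _)) (phi_nonneg hω x)
  have hsumG : ∑ x ∈ G, ω j * (x j : ℝ) / phi ω x = R + ω j * (γ j : ℝ) / δ := by
    rw [hR, Finset.sum_erase_add _ _ hγG]
  rw [hsumG]
  have hγpos : 0 < ω j * (γ j : ℝ) := mul_pos (hω j) (by exact_mod_cast Nat.pos_of_ne_zero hγj)
  have hApos : 0 < (A.card : ℝ) := by
    have : 0 < A.card := Finset.card_pos.2 ⟨0, (hmemA 0).2 ⟨by rw [phi_zero]; exact hτ, S.zero_mem⟩⟩
    exact_mod_cast this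
  have h1 : R * T ≤ R * (2 * δ * (A.card : ℝ)) := mul_le_mul_of_nonneg_left hTle hRnn
  have h2 : δ * ((lev ω τ).card : ℝ) ≤ R * (2 * δ * (A.card : ℝ)) + (A.card : ℝ) * (ω j * (γ j : ℝ)) := by
    linarith
  have h3 : δ * (2 * (A.card : ℝ) * (R + ω j * (γ j : ℝ) / δ)) =
      R * (2 * δ * (A.card : ℝ)) + 2 * ((A.card : ℝ) * (ω j * (γ j : ℝ))) := by
    have hdiv : ω j * (γ j : ℝ) / δ * δ = ω j * (γ j : ℝ) := div_mul_cancel₀ _ hδ.ne'
    linear_combination 2 * (A.card : ℝ) * hdiv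
  have h4 : 0 < (A.card : ℝ) * (ω j * (γ j : ℝ)) := mul_pos hApos hγpos
  have h5 : δ * ((lev ω τ).card : ℝ) < δ * (2 * (A.card : ℝ) * (R + ω j * (γ j : ℝ) / δ)) := by
    rw [h3]
    linarith
  exact lt_of_mul_lt_mul_left h5 hδ.le

/-- The core inequality: `d N < 2 n e`. -/
theorem core {ω : Fin d → ℝ} (hω : ∀ i, 0 < ω i) (S : AddSubmonoid (Fin d → ℕ))
    (τ : ℝ) (hτ : 0 ≤ τ) (hgap : ∀ x, x ∉ S → phi ω x ≤ τ) (G : Finset (Fin d → ℕ))
    (hG : ∀ x, x ∈ G ↔ IsGen S x) (hd : 0 < d) :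
    d * (lev ω τ).card < 2 * (((lev ω τ).filter (fun x => x ∈ S)).card * G.card) := by
  have h1 : ∑ j : Fin d, ((lev ω τ).card : ℝ) < ∑ j : Fin d,
      2 * (((lev ω τ).filter (fun x => x ∈ S)).card : ℝ) *
      ∑ x ∈ G, ω j * (x j : ℝ) / phi ω x := by
    apply Finset.sum_lt_sum_of_nonempty
    · exact ⟨⟨0, hd⟩, Finset.mem_univ _⟩
    · intro j _
      exact core_coord hω S τ hτ hgap G hG j
  rw [← Finset.mul_sum, Finset.sum_comm] at h1
  have h2 : ∑ x ∈ G, ∑ j : Fin d, ω j * (x j : ℝ) / phi ω x = (G.card : ℝ) := by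
    have : ∀ x ∈ G, ∑ j : Fin d, ω j * (x j : ℝ) / phi ω x = 1 := by
      intro x hx
      rw [← Finset.sum_div]
      exact div_self (phi_pos hω ((hG x).1 hx).2.1).ne'
    rw [Finset.sum_congr rfl this]
    simp
  rw [h2] at h1
  simp only [Finset.sum_const, Finset.card_univ, Fintype.card_fin, nsmul_eq_mul] at h1
  have h3 : ((d * (lev ω τ).card : ℕ) : ℝ) <
      ((2 * (((lev ω τ).filter (fun x => x ∈ S)).card * G.card) : ℕ) : ℝ) := by
    push_cast
    linarith
  exact_mod_cast h3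

/-- Minimal generators lie in a bounded region. -/
theorem gen_bounded {ω : Fin d → ℝ} (hω : ∀ i, 0 < ω i) (S : AddSubmonoid (Fin d → ℕ))
    (τ : ℝ) (hτ : 0 ≤ τ) (hgap : ∀ x, x ∉ S → phi ω x ≤ τ) :
    ∃ G : Finset (Fin d → ℕ), ∀ x, x ∈ G ↔ IsGen S x := by
  have hS : ∀ x, τ < phi ω x → x ∈ S := by
    intro x hx
    by_contra h
    exact absurd (hgap x h) (not_le.2 hx)
  have hq : ∀ j : Fin d, ∃ k : ℕ, τ < k * ω j := by
    intro j
    obtain ⟨k, hk⟩ := exists_nat_gt (τ / ω j)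
    rw [div_lt_iff₀ (hω j)] at hk
    exact ⟨k, hk⟩
  choose q hq using hq
  have hfin : {x | IsGen S x}.Finite := by
    apply Set.Finite.subset (Finset.finite_toSet (lev ω (τ + ∑ j, q j * ω j)))
    intro x hx
    rw [Finset.mem_coe, mem_lev hω]
    by_contra hcon
    push Not at hcon
    obtain ⟨j, hj⟩ : ∃ j, q j ≤ x j := by
      by_contra h
      push Not at h
      have h1 : phi ω x ≤ ∑ j, q j * ω j := by
        apply Finset.sum_le_sum
        intro i _
        have h2 : (x i : ℝ) ≤ (q i : ℝ) := by exact_mod_cast (h i).le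
        have := mul_le_mul_of_nonneg_left h2 (hω i).le
        linarith
      linarith
    have hle : (q j • Pi.single j 1 : Fin d → ℕ) ≤ x := by
      intro i
      by_cases hi : i = j
      · subst hi
        simpa using hj
      · simp [Pi.single_eq_of_ne hi]
    have hdec : (x - q j • Pi.single j 1) + q j • Pi.single j 1 = x := tsub_add_cancel_of_le hle
    have hφ : phi ω (x - q j • Pi.single j 1) + q j * ω j = phi ω x := by
      rw [← phi_single ω j, ← phi_smul, ← phi_add, hdec]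
    have hle2 : (q j : ℝ) * ω j ≤ ∑ j, (q j : ℝ) * ω j :=
      Finset.single_le_sum (f := fun j => (q j : ℝ) * ω j)
        (fun i _ => mul_nonneg (Nat.cast_nonneg _) (hω i).le) (Finset.mem_univ j)
    have h1 : τ < phi ω (x - q j • Pi.single j 1) := by linarith
    have h2 : τ < phi ω (q j • Pi.single j 1) := by
      rw [phi_smul, phi_single]
      exact hq j
    apply hx.2.2 _ (hS _ h1) _ (hS _ h2) _ _ hdec
    · intro h
      rw [h, phi_zero] at h1
      linarith
    · intro h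
      rw [h, phi_zero] at h2
      linarith
  exact ⟨hfin.toFinset, fun x => by simp⟩

end Pool.Agent.TH417.GNSWilf
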