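import Mathlib

/-!
Helper file for the extended Wilf inequality for generalized numerical semigroups.
-/

namespace Pool.Agent.TH417.GNSWilf

open Finset

/-- Gordan-type lemma by Fourier-Motzkin elimination. -/
theorem exists_pos_functional : ∀ (d : ℕ) (Q : (Fin d → ℤ) → Prop)
    (_hadd : ∀ v w, Q v → Q w → Q (v + w)) (_h0 : ¬ Q 0)
    (A : Finset (Fin d → ℤ)) (_hA : ∀ a ∈ A, Q a),
    ∃ ω : Fin d → ℝ, ∀ a ∈ A, 0 < ∑ i, ω i * (a i : ℝ) := by
  intro d
  induction d with
  | zero =>
    intro Q hadd h0 A hA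
    refine ⟨fun _ => 0, fun a ha => ?_⟩
    have h1 : a = 0 := Subsingleton.elim _ _
    exact absurd (hA a ha) (by rwa [h1])
  | succ d ih =>
    intro Q hadd h0 A hA
    have hsmul : ∀ (n : ℕ) v, Q v → Q (fun i => ((n : ℤ) + 1) * v i) := by
      intro n v hv
      induction n with
      | zero => simpa using hv
      | succ n ihn =>
        have := hadd _ _ ihn hv
        convert this using 1
        funext i
        simp
        ring
    have hsmul' : ∀ (m : ℤ) v, 0 < m → Q v → Q (fun i => m * v i) := by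
      intro m v hm hv
      have := hsmul (m - 1).toNat v hv
      convert this using 1
      funext i
      have : (((m - 1).toNat : ℤ)) = m - 1 := Int.toNat_of_nonneg (by omega)
      rw [this]
      ring
    classical
    set Q' : (Fin d → ℤ) → Prop := fun u => Q (Fin.cons 0 u) with hQ'
    have hadd' : ∀ v w, Q' v → Q' w → Q' (v + w) := by
      intro v w hv hw
      have := hadd _ _ hv hw
      have h2 : (Fin.cons 0 v : Fin (d+1) → ℤ) + Fin.cons 0 w = Fin.cons 0 (v + w) := by
        funext i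
        refine Fin.cases ?_ (fun k => ?_) i
        · simp
        · simp
      rw [h2] at this
      exact this
    have h0' : ¬ Q' 0 := by
      intro h
      apply h0
      have h2 : (Fin.cons 0 (0 : Fin d → ℤ) : Fin (d+1) → ℤ) = 0 := by
        funext i
        refine Fin.cases ?_ (fun k => ?_) i
        · simp
        · simp
      rw [← h2]
      exact h
    let Ap := A.filter (fun a => 0 < a 0)
    let Am := A.filter (fun a => a 0 < 0)
    let Az := A.filter (fun a => a 0 = 0)
    let A' : Finset (Fin d → ℤ) := (Az.image Fin.tail) ∪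
      ((Ap ×ˢ Am).image (fun p => Fin.tail (fun i => (- p.2 0) * p.1 i + p.1 0 * p.2 i)))
    have hA' : ∀ a ∈ A', Q' a := by
      intro a ha
      rcases Finset.mem_union.1 ha with h | h
      · obtain ⟨b, hb, rfl⟩ := Finset.mem_image.1 h
        obtain ⟨hbA, hb0⟩ := Finset.mem_filter.1 hb
        show Q (Fin.cons 0 (Fin.tail b))
        have : (Fin.cons 0 (Fin.tail b) : Fin (d+1) → ℤ) = b := by
          rw [← hb0]; exact Fin.cons_self_tail b
        rw [this]
        exact hA b hbA
      · obtain ⟨⟨p, q⟩, hpq, rfl⟩ := Finset.mem_image.1 h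
        obtain ⟨hp, hq⟩ := Finset.mem_product.1 hpq
        obtain ⟨hpA, hp0⟩ := Finset.mem_filter.1 hp
        obtain ⟨hqA, hq0⟩ := Finset.mem_filter.1 hq
        show Q (Fin.cons 0 (Fin.tail (fun i => (- q 0) * p i + p 0 * q i)))
        have hz : (fun i => (- q 0) * p i + p 0 * q i) 0 = 0 := by ring
        have : (Fin.cons 0 (Fin.tail (fun i => (- q 0) * p i + p 0 * q i)) :
            Fin (d+1) → ℤ) = (fun i => (- q 0) * p i + p 0 * q i) := by
          conv_lhs => rw [← hz]
          exact Fin.cons_self_tail (α := fun _ => ℤ) (fun i => (- q 0) * p i + p 0 * q i)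
        rw [this]
        exact hadd _ _ (hsmul' (- q 0) p (by simpa using hq0) (hA p hpA))
          (hsmul' (p 0) q hp0 (hA q hqA))
    obtain ⟨ω', hω'⟩ := ih Q' hadd' h0' A' hA'
    let L : (Fin (d+1) → ℤ) → ℝ := fun a => ∑ i, ω' i * ((a i.succ : ℤ) : ℝ)
    have hcomp : ∀ x ∈ Ap.image (fun a => - L a / (a 0 : ℝ)),
        ∀ y ∈ Am.image (fun b => L b / (-(b 0 : ℝ))), x < y := by
      intro x hx y hy
      obtain ⟨p, hp, rfl⟩ := Finset.mem_image.1 hx
      obtain ⟨q, hq, rfl⟩ := Finset.mem_image.1 hy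
      have hp0 : 0 < p 0 := (Finset.mem_filter.1 hp).2
      have hq0 : q 0 < 0 := (Finset.mem_filter.1 hq).2
      have hmem : Fin.tail (fun i => (- q 0) * p i + p 0 * q i) ∈ A' := by
        apply Finset.mem_union_right
        exact Finset.mem_image.2 ⟨(p, q), Finset.mem_product.2 ⟨hp, hq⟩, rfl⟩
      have h := hω' _ hmem
      have h2 : ∑ i, ω' i * ((Fin.tail (fun i => (- q 0) * p i + p 0 * q i) i : ℤ) : ℝ)
          = (-(q 0 : ℝ)) * L p + (p 0 : ℝ) * L q := by
        simp only [L, Finset.mul_sum, ← Finset.sum_add_distrib]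
        refine Finset.sum_congr rfl fun i _ => ?_
        simp only [Fin.tail]
        push_cast
        ring
      rw [h2] at h
      have hp0' : (0 : ℝ) < (p 0 : ℝ) := by exact_mod_cast hp0
      have hq0' : (0 : ℝ) < -(q 0 : ℝ) := by
        have : (q 0 : ℝ) < 0 := by exact_mod_cast hq0
        linarith
      rw [div_lt_div_iff₀ hp0' hq0']
      nlinarith
    obtain ⟨m, hm1, hm2⟩ := Order.exists_between_finsets _ _ hcomp
    refine ⟨Fin.cons m ω', fun a ha => ?_⟩
    have hsum : ∑ i, (Fin.cons m ω' : Fin (d+1) → ℝ) i * (a i : ℝ) = m * (a 0 : ℝ) + L a := by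
      rw [Fin.sum_univ_succ]
      simp [L]
    rw [hsum]
    rcases lt_trichotomy (a 0) 0 with h | h | h
    · have h1 := hm2 _ (Finset.mem_image.2 ⟨a, Finset.mem_filter.2 ⟨ha, h⟩, rfl⟩)
      have hq0' : (0 : ℝ) < -(a 0 : ℝ) := by
        have : (a 0 : ℝ) < 0 := by exact_mod_cast h
        linarith
      rw [lt_div_iff₀ hq0'] at h1
      linarith
    · have h1 := hω' (Fin.tail a) (Finset.mem_union_left _
        (Finset.mem_image.2 ⟨a, Finset.mem_filter.2 ⟨ha, h⟩, rfl⟩))
      have : L a = ∑ i, ω' i * ((Fin.tail a i : ℤ) : ℝ) := rfl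
      rw [this, h]
      simpa using h1
    · have h1 := hm1 _ (Finset.mem_image.2 ⟨a, Finset.mem_filter.2 ⟨ha, h⟩, rfl⟩)
      have hp0' : (0 : ℝ) < (a 0 : ℝ) := by exact_mod_cast h
      rw [div_lt_iff₀ hp0'] at h1
      linarith

end Pool.Agent.TH417.GNSWilf
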