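import Pool.Agent.TH387.EI.Defs

set_option autoImplicit false

open scoped ComplexOrder InnerProductSpace
open Filter Topology

noncomputable section

namespace Pool.Agent.TH417.EIlimit

theorem ulim {ι : Type*} (U : Ultrafilter ι) (g : ι → ℂ) (C : ℝ)
    (hg : ∀ᶠ i in (U : Filter ι), ‖g i‖ ≤ C) :
    ∃ z : ℂ, ‖z‖ ≤ C ∧ Tendsto g U (𝓝 z) := by
  have hK : IsCompact (Metric.closedBall (0 : ℂ) C) := isCompact_closedBall _ _
  have h1 : (U.map g : Filter ℂ) ≤ 𝓟 (Metric.closedBall (0 : ℂ) C) := by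
    rw [Filter.le_principal_iff]
    change g ⁻¹' (Metric.closedBall (0 : ℂ) C) ∈ (U : Filter ι)
    filter_upwards [hg] with i hi
    simpa [mem_closedBall_zero_iff] using hi
  obtain ⟨z, hz, hz'⟩ := hK.ultrafilter_le_nhds _ h1
  exact ⟨z, by simpa [mem_closedBall_zero_iff] using hz, hz'⟩

end Pool.Agent.TH417.EIlimit

namespace Pool.Agent.TH387.EI
universe u

variable {H K : Type u} [NormedAddCommGroup H] [InnerProductSpace ℂ H] [CompleteSpace H]
  [NormedAddCommGroup K] [InnerProductSpace ℂ K] [CompleteSpace K]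

open Pool.Agent.TH417.EIlimit in
theorem limit_op (V : H → K) (c : ℝ) (hV : ∀ η, ‖η‖ ≤ 1 → ‖V η‖ ≤ 2)
    (h : ∀ (P : Submodule ℂ H) [FiniteDimensional ℂ P], ∃ W : P →ₗ[ℂ] K, Good V P W c) :
    ∃ W : H →L[ℂ] K, ∀ η, ‖η‖ ≤ 1 → ‖W η - V η‖ ≤ c := by
  classical
  have h' : ∀ F : Finset H, ∃ W : (Submodule.span ℂ (F : Set H)) →ₗ[ℂ] K,
      Good V (Submodule.span ℂ (F : Set H)) W c := fun F => h _
  choose W0 hW0 using h'
  have hc : 0 ≤ c := by
    have := hW0 ∅ 0 (by simp)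
    exact (norm_nonneg _).trans this
  let w : Finset H → H → K := fun F v =>
    if hv : v ∈ Submodule.span ℂ (F : Set H) then W0 F ⟨v, hv⟩ else 0
  have hwin : ∀ (F : Finset H) v (hv : v ∈ Submodule.span ℂ (F : Set H)), w F v = W0 F ⟨v, hv⟩ := by
    intro F v hv
    simp only [w, dif_pos hv]
  obtain ⟨U, hU⟩ : ∃ U : Ultrafilter (Finset H), (U : Filter (Finset H)) ≤ atTop :=
    ⟨Ultrafilter.of atTop, Ultrafilter.of_le _⟩
  have hmem : ∀ v : H, ∀ᶠ F : Finset H in (U : Filter (Finset H)), v ∈ Submodule.span ℂ (F : Set H) := by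
    intro v
    apply hU
    filter_upwards [Filter.eventually_ge_atTop ({v} : Finset H)] with F hF
    exact Submodule.subset_span (by simpa using hF (Finset.mem_singleton_self v))
  have hbd : ∀ F v, ‖w F v‖ ≤ (2 + c) * ‖v‖ := by
    intro F v
    by_cases hv : v ∈ Submodule.span ℂ (F : Set H)
    · rw [hwin F v hv]
      by_cases hv0 : v = 0
      · subst hv0
        have : (⟨0, hv⟩ : Submodule.span ℂ (F : Set H)) = 0 := rfl
        rw [this, map_zero]
        simp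
      · have hn : 0 < ‖v‖ := norm_pos_iff.2 hv0
        have h1 : ‖((‖v‖⁻¹ : ℝ) : ℂ) • v‖ = 1 := by
          rw [norm_smul, Complex.norm_real, norm_inv, norm_norm, inv_mul_cancel₀ hn.ne']
        have h2 := hW0 F (((‖v‖⁻¹ : ℝ) : ℂ) • ⟨v, hv⟩) (by
          change ‖((‖v‖⁻¹ : ℝ) : ℂ) • v‖ ≤ 1
          exact h1.le)
        have h3 : ‖W0 F (((‖v‖⁻¹ : ℝ) : ℂ) • ⟨v, hv⟩)‖ ≤ 2 + c := by
          have h4 := hV (((‖v‖⁻¹ : ℝ) : ℂ) • v) h1.le
          have h5 : ‖W0 F (((‖v‖⁻¹ : ℝ) : ℂ) • ⟨v, hv⟩)‖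
              ≤ ‖W0 F (((‖v‖⁻¹ : ℝ) : ℂ) • ⟨v, hv⟩) - V (((‖v‖⁻¹ : ℝ) : ℂ) • v)‖
                + ‖V (((‖v‖⁻¹ : ℝ) : ℂ) • v)‖ := by
            have := norm_add_le (W0 F (((‖v‖⁻¹ : ℝ) : ℂ) • ⟨v, hv⟩) - V (((‖v‖⁻¹ : ℝ) : ℂ) • v))
              (V (((‖v‖⁻¹ : ℝ) : ℂ) • v))
            rwa [sub_add_cancel] at this
          have h6 : ‖W0 F (((‖v‖⁻¹ : ℝ) : ℂ) • ⟨v, hv⟩) - V (((‖v‖⁻¹ : ℝ) : ℂ) • v)‖ ≤ c := h2
          linarith
        rw [map_smul, norm_smul, Complex.norm_real, norm_inv, norm_norm] at h3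
        rw [inv_mul_le_iff₀ hn] at h3
        linarith
    · simp only [w, dif_neg hv, norm_zero]
      positivity
  have hlim : ∀ v : H, ∀ k : K, ∃ z : ℂ, ‖z‖ ≤ (2 + c) * ‖v‖ * ‖k‖ ∧
      Tendsto (fun F => ⟪w F v, k⟫_ℂ) U (𝓝 z) := by
    intro v k
    apply ulim
    refine Filter.Eventually.of_forall fun F => ?_
    exact (norm_inner_le_norm _ _).trans (mul_le_mul_of_nonneg_right (hbd F v) (norm_nonneg _))
  choose L hLn hL using hlim
  let f : H → (K →L[ℂ] ℂ) := fun v => LinearMap.mkContinuous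
    { toFun := L v
      map_add' := fun k l => by
        refine tendsto_nhds_unique (hL v (k + l)) ?_
        simpa only [inner_add_right] using (hL v k).add (hL v l)
      map_smul' := fun a k => by
        refine tendsto_nhds_unique (hL v (a • k)) ?_
        simpa only [inner_smul_right, RingHom.id_apply, smul_eq_mul] using (hL v k).const_mul a }
    ((2 + c) * ‖v‖) (fun k => hLn v k)
  have hf : ∀ v k, f v k = L v k := fun v k => rfl
  let g : H → K := fun v => (InnerProductSpace.toDual ℂ K).symm (f v)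
  have hg : ∀ v k, ⟪g v, k⟫_ℂ = L v k := by
    intro v k
    simp only [g, InnerProductSpace.toDual_symm_apply, hf]
  let G : H →ₗ[ℂ] K :=
    { toFun := g
      map_add' := fun u v => by
        refine ext_inner_right ℂ fun k => ?_
        rw [inner_add_left, hg, hg, hg]
        refine tendsto_nhds_unique (hL (u + v) k) ?_
        refine ((hL u k).add (hL v k)).congr' ?_
        filter_upwards [hmem u, hmem v] with F hu hv
        rw [hwin F u hu, hwin F v hv, hwin F (u + v) (Submodule.add_mem _ hu hv), ← inner_add_left,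
          ← map_add]
        rfl
      map_smul' := fun a v => by
        refine ext_inner_right ℂ fun k => ?_
        rw [RingHom.id_apply, inner_smul_left, hg, hg]
        refine tendsto_nhds_unique (hL (a • v) k) ?_
        refine ((hL v k).const_mul ((starRingEnd ℂ) a)).congr' ?_
        filter_upwards [hmem v] with F hv
        rw [hwin F v hv, hwin F (a • v) (Submodule.smul_mem _ _ hv), ← inner_smul_left, ← map_smul]
        rfl }
  have hG : ∀ v, G v = g v := fun v => rfl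
  have hGn : ∀ v, ‖G v‖ ≤ (2 + c) * ‖v‖ := by
    intro v
    by_contra hcon
    push Not at hcon
    have h1 : ‖G v‖ * ‖G v‖ ≤ (2 + c) * ‖v‖ * ‖G v‖ := by
      have h2 : ‖⟪g v, g v⟫_ℂ‖ ≤ (2 + c) * ‖v‖ * ‖g v‖ := by
        rw [hg]; exact hLn v (g v)
      rw [inner_self_eq_norm_sq_to_K] at h2
      have h3 : ‖((‖g v‖ : ℂ)) ^ 2‖ = ‖g v‖ * ‖g v‖ := by
        rw [norm_pow, Complex.norm_real, norm_norm, sq]
      have h6 : ‖g v‖ * ‖g v‖ ≤ (2 + c) * ‖v‖ * ‖g v‖ := by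
        rw [← h3]
        exact h2
      exact h6
    have h4 : 0 < ‖G v‖ := lt_of_le_of_lt (by positivity) hcon
    have h5 := le_of_mul_le_mul_right h1 h4
    linarith
  refine ⟨LinearMap.mkContinuous G (2 + c) hGn, fun η hη => ?_⟩
  change ‖g η - V η‖ ≤ c
  have key : ∀ k, ‖⟪g η - V η, k⟫_ℂ‖ ≤ c * ‖k‖ := by
    intro k
    rw [inner_sub_left, hg]
    have h1 : Tendsto (fun F => ‖⟪w F η, k⟫_ℂ - ⟪V η, k⟫_ℂ‖) U (𝓝 ‖L η k - ⟪V η, k⟫_ℂ‖) :=
      ((hL η k).sub_const _).norm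
    refine le_of_tendsto h1 ?_
    filter_upwards [hmem η] with F hF
    rw [← inner_sub_left]
    refine (norm_inner_le_norm _ _).trans (mul_le_mul_of_nonneg_right ?_ (norm_nonneg _))
    rw [hwin F η hF]
    exact hW0 F ⟨η, hF⟩ hη
  by_contra hcon
  push Not at hcon
  have h1 := key (g η - V η)
  rw [inner_self_eq_norm_sq_to_K] at h1
  have h3 : ‖((‖g η - V η‖ : ℂ)) ^ 2‖ = ‖g η - V η‖ * ‖g η - V η‖ := by
    rw [norm_pow, Complex.norm_real, norm_norm, sq]
  have h2 : ‖g η - V η‖ * ‖g η - V η‖ ≤ c * ‖g η - V η‖ := by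
    rw [← h3]; exact h1
  have h4 : 0 < ‖g η - V η‖ := lt_of_le_of_lt hc hcon
  have h5 := le_of_mul_le_mul_right h2 h4
  linarith

end Pool.Agent.TH387.EI
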