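import Pool.Agent.TH387.EI.Defs

set_option autoImplicit false

open scoped ComplexOrder InnerProductSpace
open Filter Topology

noncomputable section

namespace Pool.Agent.TH387.EI
universe u

variable {H K : Type u} [NormedAddCommGroup H] [InnerProductSpace ℂ H] [CompleteSpace H]
  [NormedAddCommGroup K] [InnerProductSpace ℂ K] [CompleteSpace K]

theorem unitary_near (W : H →L[ℂ] K) (δ : ℝ) (hδ : 0 < δ) (hδ1 : δ ≤ 1 / 4)
    (h1 : ∀ η, ‖η‖ = 1 → |‖W η‖ - 1| ≤ δ) (h2 : ∀ k, ‖k‖ = 1 → ∃ η, ‖W η - k‖ ≤ 1 / 2) :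
    ∃ U : H ≃ₗᵢ[ℂ] K, ∀ η, ‖η‖ ≤ 1 → ‖U η - W η‖ ≤ 2 * δ := by
  -- homogeneous bounds
  have hW : ∀ v : H, (1 - δ) * ‖v‖ ≤ ‖W v‖ ∧ ‖W v‖ ≤ (1 + δ) * ‖v‖ := by
    intro v
    by_cases hv : v = 0
    · subst hv; simp
    have hn : 0 < ‖v‖ := norm_pos_iff.2 hv
    have h3 : ‖((‖v‖⁻¹ : ℝ) : ℂ) • v‖ = 1 := by
      rw [norm_smul, Complex.norm_real, norm_inv, norm_norm, inv_mul_cancel₀ hn.ne']
    have h4 := h1 _ h3
    rw [map_smul, norm_smul, Complex.norm_real, norm_inv, norm_norm, abs_le] at h4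
    have e : ‖W v‖ = ‖v‖ * (‖v‖⁻¹ * ‖W v‖) := by
      rw [← mul_assoc, mul_inv_cancel₀ hn.ne', one_mul]
    constructor
    · rw [e]; nlinarith
    · rw [e]; nlinarith
  let Q : H →L[ℂ] H := (ContinuousLinearMap.adjoint W) ∘L W
  have hQin : ∀ u v, ⟪Q u, v⟫_ℂ = ⟪W u, W v⟫_ℂ := by
    intro u v
    simp only [Q, ContinuousLinearMap.comp_apply, ContinuousLinearMap.adjoint_inner_left]
  have hQpos : 0 ≤ Q := by
    rw [ContinuousLinearMap.nonneg_iff_isPositive]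
    exact ContinuousLinearMap.isPositive_adjoint_comp_self W
  let S : H →L[ℂ] H := CFC.sqrt Q
  have hSnn : 0 ≤ S := CFC.sqrt_nonneg Q
  have hSS : S * S = Q := CFC.sqrt_mul_sqrt_self Q hQpos
  have hSsa : IsSelfAdjoint S := hSnn.isSelfAdjoint
  have hSsym : ∀ u v, ⟪S u, v⟫_ℂ = ⟪u, S v⟫_ℂ := by
    intro u v
    have := ContinuousLinearMap.adjoint_inner_left S v u
    rw [← ContinuousLinearMap.star_eq_adjoint, hSsa.star_eq] at this
    exact this
  have hSSv : ∀ v, S (S v) = Q v := fun v => by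
    rw [← hSS]; rfl
  have hSn : ∀ v, ‖S v‖ = ‖W v‖ := by
    intro v
    have h3 : ⟪S v, S v⟫_ℂ = ⟪W v, W v⟫_ℂ := by
      rw [← hQin, ← hSSv, hSsym (S v) v]
    rw [inner_self_eq_norm_sq_to_K, inner_self_eq_norm_sq_to_K] at h3
    have h4 : ‖S v‖ ^ 2 = ‖W v‖ ^ 2 := by exact_mod_cast h3
    exact (sq_eq_sq₀ (norm_nonneg _) (norm_nonneg _)).1 h4
  have hSpos : ∀ v, 0 ≤ (⟪S v, v⟫_ℂ).re := by
    intro v
    rw [ContinuousLinearMap.nonneg_iff_isPositive] at hSnn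
    exact hSnn.re_inner_nonneg_left v
  -- lower bound for S + 1
  have hS1 : ∀ v, (5 / 4) * ‖v‖ ≤ ‖S v + v‖ := by
    intro v
    have h3 : ‖S v + v‖ ^ 2 = ‖S v‖ ^ 2 + 2 * (⟪S v, v⟫_ℂ).re + ‖v‖ ^ 2 := by
      have := @norm_add_sq ℂ H _ _ _ (S v) v
      simpa using this
    have h4 := (hW v).1
    rw [← hSn] at h4
    have h5 : (3 / 4) * ‖v‖ ≤ ‖S v‖ := by
      have := norm_nonneg v
      nlinarith
    have h6 := hSpos v
    have h7 : ((5 / 4) * ‖v‖) ^ 2 ≤ ‖S v + v‖ ^ 2 := by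
      rw [h3]
      have := norm_nonneg v
      nlinarith
    exact (pow_le_pow_iff_left₀ (by positivity) (norm_nonneg _) two_ne_zero).1 h7
  -- bound for Q - 1
  have hQ1 : ∀ v, ‖Q v - v‖ ≤ (2 * δ + δ ^ 2) * ‖v‖ := by
    have hsa : IsSelfAdjoint (Q - 1) := (hQpos.isSelfAdjoint).sub (.one _)
    have hn : ‖Q - 1‖ ≤ 2 * δ + δ ^ 2 := by
      rw [ContinuousLinearMap.norm_eq_iSup_rayleighQuotient _ hsa.isSymmetric]
      refine ciSup_le fun x => ?_
      by_cases hx : x = 0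
      · subst hx
        rw [ContinuousLinearMap.rayleighQuotient_apply_zero, abs_zero]
        positivity
      have hn : 0 < ‖x‖ := norm_pos_iff.2 hx
      rw [ContinuousLinearMap.rayleighQuotient, abs_div, abs_of_nonneg (sq_nonneg ‖x‖),
        div_le_iff₀ (by positivity), ContinuousLinearMap.reApplyInnerSelf_apply]
      have e : RCLike.re ⟪(Q - 1) x, x⟫_ℂ = ‖W x‖ ^ 2 - ‖x‖ ^ 2 := by
        have e1 : (Q - 1) x = Q x - x := rfl
        rw [e1, inner_sub_left, hQin, inner_self_eq_norm_sq_to_K, inner_self_eq_norm_sq_to_K]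
        have : ((‖W x‖ : ℂ) ^ 2 - (‖x‖ : ℂ) ^ 2) = ((‖W x‖ ^ 2 - ‖x‖ ^ 2 : ℝ) : ℂ) := by
          push_cast; rfl
        exact (congrArg Complex.re this).trans (Complex.ofReal_re _)
      rw [e, abs_le]
      obtain ⟨h3, h4⟩ := hW x
      have h5 : 0 ≤ ‖W x‖ := norm_nonneg _
      have h6 : ((1 - δ) * ‖x‖) ^ 2 ≤ ‖W x‖ ^ 2 := by
        apply pow_le_pow_left₀ _ h3
        have : 0 ≤ 1 - δ := by linarith
        positivity
      have h7 : ‖W x‖ ^ 2 ≤ ((1 + δ) * ‖x‖) ^ 2 := pow_le_pow_left₀ h5 h4 _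
      have h8 : 0 < ‖x‖ ^ 2 := by positivity
      constructor
      · nlinarith
      · nlinarith
    intro v
    have := (Q - 1).le_of_opNorm_le hn v
    simpa using this
  have hSm : ∀ u, ‖S u - u‖ ≤ 2 * δ * ‖u‖ := by
    intro u
    have h3 : Q u - u = S (S u - u) + (S u - u) := by
      rw [map_sub, hSSv]; abel
    have h4 := hS1 (S u - u)
    rw [← h3] at h4
    have h5 := hQ1 u
    have h6 := norm_nonneg u
    have h7 : (2 * δ + δ ^ 2) * ‖u‖ ≤ (5 / 4) * (2 * δ * ‖u‖) := by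
      have : 2 * δ + δ ^ 2 ≤ 5 / 4 * (2 * δ) := by nlinarith
      nlinarith
    linarith
  -- S is invertible
  have hSu : IsUnit S := by
    have h3 : ‖1 - S‖ < 1 := by
      have : ‖1 - S‖ ≤ 2 * δ := by
        refine ContinuousLinearMap.opNorm_le_bound _ (by positivity) fun u => ?_
        have := hSm u
        rw [← norm_neg, neg_sub] at this
        exact this
      linarith
    have h4 := (Units.oneSub (1 - S) h3).isUnit
    have h5 : ((Units.oneSub (1 - S) h3 : (H →L[ℂ] H)ˣ) : H →L[ℂ] H) = S := by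
      rw [Units.val_oneSub]; abel
    rwa [h5] at h4
  obtain ⟨T, hT1, hT2⟩ : ∃ T : H →L[ℂ] H, S * T = 1 ∧ T * S = 1 := by
    obtain ⟨u, hu⟩ := hSu
    exact ⟨↑u⁻¹, by rw [← hu]; exact u.mul_inv, by rw [← hu]; exact u.inv_mul⟩
  have hST : ∀ v, S (T v) = v := fun v => congrArg (fun f : H →L[ℂ] H => f v) hT1
  have hTS : ∀ v, T (S v) = v := fun v => congrArg (fun f : H →L[ℂ] H => f v) hT2
  -- W is onto
  have hrange : LinearMap.range (W : H →ₗ[ℂ] K) = ⊤ := by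
    have hcl : IsClosed (Set.range W) := by
      have hanti : AntilipschitzWith ⟨(3 / 4 : ℝ)⁻¹, by norm_num⟩ W := by
        refine ContinuousLinearMap.antilipschitz_of_bound _ fun v => ?_
        have h3 := (hW v).1
        have h6 := norm_nonneg v
        change ‖v‖ ≤ (3 / 4 : ℝ)⁻¹ * ‖W v‖
        have h7 : (3 / 4) * ‖v‖ ≤ ‖W v‖ := by nlinarith
        rw [le_inv_mul_iff₀ (by norm_num)]
        linarith
      exact hanti.isClosed_range W.uniformContinuous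
    have hcomp : IsComplete ((LinearMap.range (W : H →ₗ[ℂ] K) : Submodule ℂ K) : Set K) := by
      have : ((LinearMap.range (W : H →ₗ[ℂ] K) : Submodule ℂ K) : Set K) = Set.range W := by
        ext x; simp
      rw [this]
      exact hcl.isComplete
    haveI : CompleteSpace (LinearMap.range (W : H →ₗ[ℂ] K) : Submodule ℂ K) :=
      hcomp.completeSpace_coe
    rw [← Submodule.orthogonal_eq_bot_iff]
    rw [Submodule.eq_bot_iff]
    intro k hk
    by_contra hk0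
    have hn : 0 < ‖k‖ := norm_pos_iff.2 hk0
    have h3 : ‖((‖k‖⁻¹ : ℝ) : ℂ) • k‖ = 1 := by
      rw [norm_smul, Complex.norm_real, norm_inv, norm_norm, inv_mul_cancel₀ hn.ne']
    obtain ⟨η, hη⟩ := h2 _ h3
    have hk' : ⟪W η, ((‖k‖⁻¹ : ℝ) : ℂ) • k⟫_ℂ = 0 := by
      rw [inner_smul_right, (Submodule.mem_orthogonal _ _).1 hk (W η) ⟨η, rfl⟩, mul_zero]
    have h4 : ‖W η - ((‖k‖⁻¹ : ℝ) : ℂ) • k‖ ^ 2 = ‖W η‖ ^ 2 + ‖((‖k‖⁻¹ : ℝ) : ℂ) • k‖ ^ 2 := by
      have := @norm_sub_sq ℂ K _ _ _ (W η) (((‖k‖⁻¹ : ℝ) : ℂ) • k)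
      rw [this, hk']
      simp
    rw [h3] at h4
    have h5 := norm_nonneg (W η - ((‖k‖⁻¹ : ℝ) : ℂ) • k)
    nlinarith [sq_nonneg ‖W η‖]
  let U0 : H →ₗᵢ[ℂ] K :=
    { toLinearMap := (W : H →ₗ[ℂ] K) ∘ₗ (T : H →ₗ[ℂ] H)
      norm_map' := fun v => by
        change ‖W (T v)‖ = ‖v‖
        rw [← hSn, hST] }
  have hU0 : Function.Surjective U0 := by
    intro k
    have : k ∈ LinearMap.range (W : H →ₗ[ℂ] K) := by rw [hrange]; trivial
    obtain ⟨v, hv⟩ := this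
    refine ⟨S v, ?_⟩
    change W (T (S v)) = k
    rw [hTS]; exact hv
  refine ⟨LinearIsometryEquiv.ofSurjective U0 hU0, fun η hη => ?_⟩
  have e1 : (LinearIsometryEquiv.ofSurjective U0 hU0) η = U0 η := rfl
  have e2 : W η = U0 (S η) := by
    change W η = W (T (S η))
    rw [hTS]
  rw [e1, e2, ← map_sub, U0.norm_map, ← norm_neg, neg_sub]
  refine (hSm η).trans ?_
  nlinarith

end Pool.Agent.TH387.EI
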